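import Pool.Agent.Helper56.GC.MainSheets
import Pool.Agent.Helper56.GC.Bridge

namespace Pool.Agent.Results.MP_299313_ag.SmoothSheetsCodimTwo

open MvPowerSeries Pool.Agent.Helper56.GC

/-- Q1 for unions of smooth sheets, of codimension `r = 2`: it has a positive answer exactly if some
transversal projection is equisingular. Let `V : ∏ e_i = 0` be a union of smooth hypersurface
germs in the `(n + 1)`-space (formal power series `e_i` are allowed), and `W ⊆ V` with ideal `I`.
1. Some transversal projection (formal power series) is equisingular for `W`, of codimension `2` in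
   `V`, if and only if there is a nonzero polynomial `G` in the coefficients of `z_1, …, z_n` such
   that `G ≠ 0` implies that the `z_i` form a set of parameters and that the projection is
   permissible and equisingular.
2. Let `z₀` be a transversal equisingular projection, with critical variety `g = 0` (equisingular
   along the image `I'` of `W` by arbitrary formal projections). Then every projection
   `(z_1, …, z_n)` (formal power series, with independent linear parts) whose line `l_z`, spanned by
   `v`, is not in the zero set of any of finitely many nonzero linear forms is a set of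
   parameters, permissible, transversal and equisingular; and if `g` is singular at the origin, it
   is equisingular also in the sense of the definition in which only convergent projections, or only
   linear transversal projections, are allowed at the second step. The same follows from
   `G ≠ 0` for a nonzero polynomial `G` in the coefficients. -/
theorem result {n m : ℕ} (e : Fin m → MvPowerSeries (Fin (n + 1)) ℂ)
    (he : ∀ i, e i ∈ IsLocalRing.maximalIdeal (MvPowerSeries (Fin (n + 1)) ℂ) ∧
      e i ∉ IsLocalRing.maximalIdeal (MvPowerSeries (Fin (n + 1)) ℂ) ^ 2)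
    (I : Ideal (MvPowerSeries (Fin (n + 1)) ℂ)) (hI : ∏ i, e i ∈ I) :
    ((∃ z₀ : Fin n → MvPowerSeries (Fin (n + 1)) ℂ, Transversal (∏ i, e i) z₀ ∧
        EquiProj (Formal ℂ) 1 (∏ i, e i) I z₀) ↔
      ∃ G : MvPolynomial (Fin n × {ν : Fin (n + 1) →₀ ℕ // ν ≠ 0}) ℂ, G ≠ 0 ∧
        ∀ z : Fin n → MvPowerSeries (Fin (n + 1)) ℂ, (∀ i, constantCoeff (z i) = 0) →
          MvPolynomial.eval (fun p => coeff p.2.1 (z p.1)) G ≠ 0 →
            EquiProj (Formal ℂ) 1 (∏ i, e i) I z) ∧
    ∀ (z₀ : Fin n → MvPowerSeries (Fin (n + 1)) ℂ) (g : MvPowerSeries (Fin n) ℂ)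
      (I' : Ideal (MvPowerSeries (Fin n) ℂ)), Transversal (∏ i, e i) z₀ →
      IsParams (∏ i, e i) z₀ → Permissible I z₀ → IsCrit (∏ i, e i) I z₀ g I' →
      Equi (Formal ℂ) 1 n g I' →
      (∃ Λ : Finset (Fin (n + 1) → ℂ), (∀ ℓ ∈ Λ, ℓ ≠ 0) ∧
        ∀ (z : Fin n → MvPowerSeries (Fin (n + 1)) ℂ) (v : Fin (n + 1) → ℂ), LinIndep z →
          (∀ i, lin (z i) v = 0) → (∀ ℓ ∈ Λ, ∑ j, ℓ j * v j ≠ 0) →
            Transversal (∏ i, e i) z ∧ EquiProj (Formal ℂ) 1 (∏ i, e i) I z ∧
            (g ∈ IsLocalRing.maximalIdeal (MvPowerSeries (Fin n) ℂ) ^ 2 →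
              EquiProj Convergent 1 (∏ i, e i) I z ∧
              EquiProj (LinearTransversal ℂ) 1 (∏ i, e i) I z)) ∧
      ∃ G : MvPolynomial (Fin n × {ν : Fin (n + 1) →₀ ℕ // ν ≠ 0}) ℂ, G ≠ 0 ∧
        ∀ z : Fin n → MvPowerSeries (Fin (n + 1)) ℂ, (∀ i, constantCoeff (z i) = 0) →
          MvPolynomial.eval (fun p => coeff p.2.1 (z p.1)) G ≠ 0 →
            Transversal (∏ i, e i) z ∧ EquiProj (Formal ℂ) 1 (∏ i, e i) I z ∧
            (g ∈ IsLocalRing.maximalIdeal (MvPowerSeries (Fin n) ℂ) ^ 2 →
              EquiProj Convergent 1 (∏ i, e i) I z ∧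
              EquiProj (LinearTransversal ℂ) 1 (∏ i, e i) I z) := by
  simp only [equiProj_iff, isCrit_iff, equi_iff]
  exact Pool.Agent.Helper56.GC.OldSheets.main e he I hI

end Pool.Agent.Results.MP_299313_ag.SmoothSheetsCodimTwo
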