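import Pool.Agent.Helper85.NT.Main

namespace Pool.Agent.Results.MP_299313_ag.SmoothSheetsNoTransversal

open MvPowerSeries Pool.Agent.Helper85.NT
open Pool.Agent.Helper56.GC hiding exF exI

/-- The negated form of Q1 for a union of smooth sheets, of codimension `r = 2`: there is an
equisingular projection, but no transversal one. `V` is the union of the four smooth hypersurface
germs `y = l ^ 2`, `l = 2 z, 4 z + x, z + x, 3 z + (2 + t) x`, in the `4`-space with the coordinates
`z, x, y, t`, and `W` is the line `z = x = y = 0`, of codimension `2` in `V`.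
* The sheets are smooth, the equation of `V` is convergent and reduced, `W` is smooth and contained
  in the singular locus of `V`.
* `V` is equisingular at the origin along `W`: the linear projection `(x, y, t)` is permissible and
  equisingular, even if only linear transversal projections are allowed at the second step.
* No transversal projection `(z_1, z_2, z_3)` (formal power series) is equisingular, also if
  arbitrary formal projections are allowed at the second step.
* All `(z_1, z_2, z_3)` with a direction `v`, `v 2 ≠ 0`, are sets of parameters, permissible for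
  `W`, and transversal.
* For every nonzero polynomial `G` in the coefficients of three power series there are convergent
  series `z_i` with `G ≠ 0` with all these properties. -/
theorem result :
    ((∀ i, X 2 - exL i ^ 2 ∈ IsLocalRing.maximalIdeal (MvPowerSeries (Fin 4) ℂ) ∧
      X 2 - exL i ^ 2 ∉ IsLocalRing.maximalIdeal (MvPowerSeries (Fin 4) ℂ) ^ 2) ∧
      IsConvergent exF ∧ (Ideal.span {exF}).IsRadical ∧ IsSmoothGerm 3 exI ∧
      singIdeal exF ≤ exI) ∧
    (Equi Convergent 2 4 exF exI ∧ EquiProj (LinearTransversal ℂ) 1 exF exI exZ) ∧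
    (∀ z : Fin 3 → MvPowerSeries (Fin 4) ℂ, Transversal exF z →
      ¬ EquiProj (Formal ℂ) 1 exF exI z) ∧
    (∀ (z : Fin 3 → MvPowerSeries (Fin 4) ℂ) (v : Fin 4 → ℂ), LinIndep z →
      (∀ i, lin (z i) v = 0) → v 2 ≠ 0 →
        IsParams exF z ∧ Permissible exI z ∧ Transversal exF z) ∧
    ∀ G : MvPolynomial (Fin 3 × {ν : Fin 4 →₀ ℕ // ν ≠ 0}) ℂ, G ≠ 0 →
      ∃ z : Fin 3 → MvPowerSeries (Fin 4) ℂ,
        (∀ i, IsConvergent (z i) ∧ constantCoeff (z i) = 0) ∧
        MvPolynomial.eval (fun p => coeff p.2.1 (z p.1)) G ≠ 0 ∧
        IsParams exF z ∧ Permissible exI z ∧ Transversal exF z ∧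
        ¬ EquiProj (Formal ℂ) 1 exF exI z ∧
        ¬ EquiProj Convergent 1 exF exI z :=
  main

end Pool.Agent.Results.MP_299313_ag.SmoothSheetsNoTransversal
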