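import Pool.Agent.Helper80.R3.Final
import Pool.Agent.Helper56.GC.Bridge
import Pool.Agent.Helper56.GC.SheetDefs

namespace Pool.Agent.Results.MP_299313_ag.TransversalNotGeneric

open MvPowerSeries Pool.Agent.Helper56.GC.Sheets
open Pool.Agent.Helper56.GC hiding exF exI

/-- The negated form of Q1, in a strong form, for smooth sheets. `V` is the union of the six smooth
hypersurface germs `z = x₂² m` in the `5`-space with the coordinates `z, x₁, x₂, x₃, t`, with
`m = 0, x₁, 1, 1 + (x₁ + x₂ x₃), 2 + t, 2 + t + (x₁ + 2 x₂ x₃)`, and `W` is the line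
`z = x₁ = x₂ = x₃ = 0`, of codimension `3` in `V`.
* The equation of `V` is convergent and reduced, `W` is smooth and contained in the singular
  locus of `V`.
* `V` is equisingular at the origin along `W`, even in the sense of the definition in which only
  linear transversal projections are allowed at each of the three steps.
* No projection `(z_1, …, z_4)` with a direction `v`, `v 0 ≠ 0` and `v 1 ≠ 0`, is equisingular, also
  if arbitrary formal power series are allowed for the `z_i` and for the projections in the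
  later steps. All these projections are sets of parameters, permissible for `W`, and
  transversal.
* For every nonzero polynomial `G` in the coefficients of four power series there are convergent
  series `z_i` with `G ≠ 0` with these properties. -/
theorem result :
    (IsConvergent (exF ℂ) ∧ (Ideal.span {exF ℂ}).IsRadical ∧ IsSmoothGerm 4 (exI ℂ) ∧
      singIdeal (exF ℂ) ≤ exI ℂ) ∧
    (Equi Convergent 3 5 (exF ℂ) (exI ℂ) ∧ Equi (LinearTransversal ℂ) 3 5 (exF ℂ) (exI ℂ)) ∧
    (∀ (z : Fin 4 → MvPowerSeries (Fin 5) ℂ) (v : Fin 5 → ℂ), LinIndep z →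
      (∀ i, lin (z i) v = 0) → v 0 ≠ 0 → v 1 ≠ 0 →
        (IsParams (exF ℂ) z ∧ Permissible (exI ℂ) z ∧ Transversal (exF ℂ) z) ∧
        ¬ EquiProj (Formal ℂ) 2 (exF ℂ) (exI ℂ) z) ∧
    ∀ G : MvPolynomial (Fin 4 × {ν : Fin 5 →₀ ℕ // ν ≠ 0}) ℂ, G ≠ 0 →
      ∃ z : Fin 4 → MvPowerSeries (Fin 5) ℂ,
        (∀ i, IsConvergent (z i) ∧ constantCoeff (z i) = 0) ∧
        MvPolynomial.eval (fun p => coeff p.2.1 (z p.1)) G ≠ 0 ∧
        IsParams (exF ℂ) z ∧ Permissible (exI ℂ) z ∧ Transversal (exF ℂ) z ∧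
        ¬ EquiProj (Formal ℂ) 2 (exF ℂ) (exI ℂ) z ∧
        ¬ EquiProj Convergent 2 (exF ℂ) (exI ℂ) z := by
  obtain ⟨h1, h2, h3, h4⟩ := Pool.Agent.Helper80.R3.final
  refine ⟨h1, ⟨(equi_iff _ _ _ _ _).2 h2.1, (equi_iff _ _ _ _ _).2 h2.2⟩,
    fun z v hz hv h0 h5 => ⟨(h3 z v hz hv h0 h5).1,
      fun h => (h3 z v hz hv h0 h5).2 ((equiProj_iff _ _).1 h)⟩, fun G hG => ?_⟩
  obtain ⟨z, h6, h7, h8, h9, h10, h11, h12⟩ := h4 G hG
  exact ⟨z, h6, h7, h8, h9, h10, fun h => h11 ((equiProj_iff _ _).1 h),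
    fun h => h12 ((equiProj_iff _ _).1 h)⟩

end Pool.Agent.Results.MP_299313_ag.TransversalNotGeneric
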