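import Pool.Agent.Helper56.GC.Main
import Pool.Agent.Helper56.GC.Bridge

namespace Pool.Agent.Results.MP_299313_ag.TransversalNotGenericCodimTwo

open MvPowerSeries Pool.Agent.Helper56.GC

/-- The negated form of Q1, in a strong form, in the least possible codimension `r = 2`. `V` is the
union of the four quadratic cones `z² = h_m` in the `4`-space with the coordinates `z, x, y, t`,
with `h_m = x y + x⁴, 2 x y + x⁴, 3 x y + ((1 + t)² - 3) x⁴, 5 x y + ((1 + t)² - 5) x⁴`, and `W` is
the line `z = x = y = 0`, of codimension `2` in `V`.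
* The equation of `V` is convergent and reduced, `W` is smooth and contained in the singular
  locus of `V`.
* `V` is equisingular at the origin along `W`, even in the sense of the definition in which only
  linear transversal projections are allowed at both steps.
* No projection `(z_1, z_2, z_3)` with a direction `v`, `v 0 ≠ 0` and `v 2 ≠ 0`, is equisingular,
  also if arbitrary formal power series are allowed for the `z_i` and for the projection in the
  second step. If moreover `v` is not in the tangent cone of `V`, these projections are sets of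
  parameters, permissible for `W`, and transversal.
* For every nonzero polynomial `G` in the coefficients of three power series there are convergent
  series `z_i` with `G ≠ 0` with all these properties. -/
theorem result :
    (IsConvergent (exF ℂ) ∧ (Ideal.span {exF ℂ}).IsRadical ∧ IsSmoothGerm 3 (exI ℂ) ∧
      singIdeal (exF ℂ) ≤ exI ℂ) ∧
    (Equi Convergent 2 4 (exF ℂ) (exI ℂ) ∧ Equi (LinearTransversal ℂ) 2 4 (exF ℂ) (exI ℂ)) ∧
    (∀ (z : Fin 3 → MvPowerSeries (Fin 4) ℂ) (v : Fin 4 → ℂ), LinIndep z →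
      (∀ i, lin (z i) v = 0) → v 0 ≠ 0 → v 2 ≠ 0 →
        ¬ EquiProj (Formal ℂ) 1 (exF ℂ) (exI ℂ) z ∧
        ((∀ i, v 0 ^ 2 ≠ exA ℂ i * v 1 * v 2) →
          IsParams (exF ℂ) z ∧ Permissible (exI ℂ) z ∧ Transversal (exF ℂ) z)) ∧
    ∀ G : MvPolynomial (Fin 3 × {ν : Fin 4 →₀ ℕ // ν ≠ 0}) ℂ, G ≠ 0 →
      ∃ z : Fin 3 → MvPowerSeries (Fin 4) ℂ,
        (∀ i, IsConvergent (z i) ∧ constantCoeff (z i) = 0) ∧
        MvPolynomial.eval (fun p => coeff p.2.1 (z p.1)) G ≠ 0 ∧
        IsParams (exF ℂ) z ∧ Permissible (exI ℂ) z ∧ Transversal (exF ℂ) z ∧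
        ¬ EquiProj (Formal ℂ) 1 (exF ℂ) (exI ℂ) z ∧
        ¬ EquiProj Convergent 1 (exF ℂ) (exI ℂ) z := by
  obtain ⟨h1, h2, h3, h4⟩ := Pool.Agent.Helper56.GC.Old.main
  refine ⟨h1, ⟨(equi_iff _ _ _ _ _).2 h2.1, (equi_iff _ _ _ _ _).2 h2.2⟩,
    fun z v hz hv h0 h5 => ⟨fun h => (h3 z v hz hv h0 h5).1 ((equiProj_iff _ _).1 h),
      (h3 z v hz hv h0 h5).2⟩, fun G hG => ?_⟩
  obtain ⟨z, h6, h7, h8, h9, h10, h11, h12⟩ := h4 G hG
  exact ⟨z, h6, h7, h8, h9, h10, fun h => h11 ((equiProj_iff _ _).1 h), fun h => h12 ((equiProj_iff _ _).1 h)⟩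

end Pool.Agent.Results.MP_299313_ag.TransversalNotGenericCodimTwo
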